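import Pool.Agent.NH86.HM.Par

/-!
# Measurable cardinals in HOD and small families

The universe of sets is `ZFSet.{u}`; the definitions are in `Pool/Agent/NH86/HD/Stm.lean` (`OD`, `HOD`,
`ODp`, `toZ`, `sq`), `Pool/Agent/NH86/HM/Meas.lean` (`MeasU`, `MeasH`) and `Pool/Agent/NH86/HM/Par.lean`
(`SmallFam`, `HypB`, `ConstOn`, `Unb`).

Let `U` be, in HOD, an `l`-complete nonprincipal ultrafilter on the regular cardinal `l`, and let `X` be
a set of sequences of length `l` of subsets of some `g < l` that is definable from ordinals and an
element of `V_ t`, where `2 ^ |X|` and `2 ^ |V_ t|` are less than `l`. Then one element of `U` makes all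
members of `X` constant. So the statement (B) that all regular cardinals above `d` are measurable in HOD
fails if for one regular `l` above `d` there is such a family `X` whose members are not all constant on
any unbounded set of HOD, for example if some member of `X` is one-to-one.
-/

set_option autoImplicit false

universe u

namespace Pool.Agent.Results.MP_e37c09_lc.SmallFamilies

open Pool.Agent.NH86.HD Pool.Agent.NH86.HM Cardinal

/-- If `U` is a measure of HOD on the regular cardinal `l` then the members of each small family `X` are
constant on one `Z ∈ U`. If for one regular cardinal `l` above `d` there is a small family whose members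
are not all constant on any unbounded set of HOD then (B) fails above `d`. -/
theorem result :
    (∀ l : Cardinal.{u}, l.IsRegular → ∀ U, MeasU l.ord U → ∀ X, SmallFam l X → ∀ g < l.ord,
      ∃ Z ∈ U, Unb l.ord Z ∧ ConstOn X g Z) ∧
    ∀ d : Cardinal.{u}, (∃ l : Cardinal.{u}, d < l ∧ l.IsRegular ∧ ∃ X, SmallFam l X ∧ ∃ g < l.ord,
      ∀ Z, HOD Z → Unb l.ord Z → ¬ ConstOn X g Z) → ¬ HypB d := by
  refine ⟨fun l hl U hU X hX g hg => main hl hU hX hg, ?_⟩
  rintro d ⟨l, hd, hl, X, hX, g, hg, h⟩ hB
  obtain ⟨U, hU⟩ := hB l hd hl
  obtain ⟨Z, hZ, h1, h2⟩ := main hl hU hX hg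
  exact h Z (hod_el hU.hod hZ) h1 h2

end Pool.Agent.Results.MP_e37c09_lc.SmallFamilies
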